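import Pool.Agent.H576Z.RIP.Final

namespace Pool.Agent.Results.MP_00538b_an.ABoundedFamily

open Finset Pool.Agent.H576Z.RIP

open Classical in
/-- There is one family of bounded unitary matrices for which `O(m log d)` uniformly random rows
have the `m`-RIP with probability at least one half, whenever `m ≤ d ^ (1 - ε)`. -/
theorem result : ∃ (K : ℝ) (U : ∀ d : ℕ, Matrix (Fin d) (Fin d) ℂ),
    (∀ d, U d ∈ Matrix.unitaryGroup (Fin d) ℂ) ∧ (∀ d i j, ‖U d i j‖ ≤ K / Real.sqrt d) ∧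
    ∀ ε : ℝ, 0 < ε → ε < 1 → ∃ C : ℝ, ∀ d m : ℕ, 2 ≤ d → 1 ≤ m → (m : ℝ) ≤ (d : ℝ) ^ (1 - ε) →
      ∃ k : ℕ, k ≤ d ∧ (k : ℝ) ≤ C * m * Real.log d ∧
        d.choose k ≤ 2 * #((powersetCard k (univ : Finset (Fin d))).filter
          fun S => HasRIP (U d) S m) :=
  main

end Pool.Agent.Results.MP_00538b_an.ABoundedFamily
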